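import Mathlib

set_option autoImplicit false
set_option maxHeartbeats 400000

open TrivSqZeroExt

namespace Pool.Agent.Results.MP_682377_al.WeakRing

/-- `E` is `2`-presented: there is an exact sequence `F₂ → F₁ → F₀ → E → 0` with each `Fᵢ` free of
finite rank. -/
def TwoPresented (R : Type) [CommRing R] (E : Type) [AddCommGroup E] [Module R E] : Prop :=
  ∃ (a b c : ℕ) (f : (Fin a → R) →ₗ[R] (Fin b → R)) (g : (Fin b → R) →ₗ[R] (Fin c → R))
    (h : (Fin c → R) →ₗ[R] E), Function.Exact f g ∧ Function.Exact g h ∧ Function.Surjective h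

/-- weak `(2,0)`-ring in the sense of Mahdou: every `2`-presented cyclic module `R / I` has
projective dimension `≤ 0`, i.e. is projective. -/
def WeakTwoZero (R : Type) [CommRing R] : Prop :=
  ∀ I : Ideal R, TwoPresented R (R ⧸ I) → Module.Projective R (R ⧸ I)

theorem fp_of_two {R : Type} [CommRing R] (I : Ideal R) (h2 : TwoPresented R (R ⧸ I)) :
    Module.FinitePresentation R I := by
  obtain ⟨a, b, c, f, g, h, hfg, hgh, hs⟩ := h2
  have hK : Module.FinitePresentation R (LinearMap.range g) := by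
    apply Module.finitePresentation_of_surjective g.rangeRestrict g.surjective_rangeRestrict
    rw [LinearMap.ker_rangeRestrict, hfg.linearMap_ker_eq, LinearMap.range_eq_map]
    exact Submodule.FG.map _ Module.Finite.fg_top
  obtain ⟨α, hα⟩ := Module.projective_lifting_property (Submodule.mkQ I) h
    (Submodule.mkQ_surjective I)
  obtain ⟨β, hβ⟩ := Module.projective_lifting_property h (Submodule.mkQ I) hs
  have hα' : ∀ u, Submodule.mkQ I (α u) = h u := fun u => LinearMap.congr_fun hα u
  have hβ' : ∀ r, h (β r) = Submodule.mkQ I r := fun r => LinearMap.congr_fun hβ r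
  have hq : ∀ r, Submodule.mkQ I r = 0 ↔ r ∈ I := fun r => Submodule.Quotient.mk_eq_zero I
  have hk : ∀ u, u ∈ LinearMap.range g ↔ h u = 0 := fun u => by
    rw [← hgh.linearMap_ker_eq, LinearMap.mem_ker]
  let θ0 : (LinearMap.range g × R) →ₗ[R] R :=
    (α ∘ₗ (LinearMap.range g).subtype).coprod (LinearMap.id - α ∘ₗ β)
  have θ0e : ∀ z, θ0 z = α z.1 + (z.2 - α (β z.2)) := fun z => rfl
  have hθ : ∀ z, θ0 z ∈ I := by
    intro z
    rw [← hq, θ0e, map_add, map_sub, hα', hα', hβ', (hk _).1 z.1.2]; simp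
  let θ := θ0.codRestrict I hθ
  have hσ : ∀ u, (LinearMap.id - β ∘ₗ α : _ →ₗ[R] _) u ∈ LinearMap.range g := by
    intro u
    rw [hk]
    show h (u - β (α u)) = 0
    rw [map_sub, hβ', hα', sub_self]
  let σ : (Fin c → R) →ₗ[R] (LinearMap.range g × R) :=
    ((LinearMap.id - β ∘ₗ α : _ →ₗ[R] _).codRestrict _ hσ).prod (-α)
  apply Module.finitePresentation_of_surjective θ
  · intro i
    refine ⟨(⟨β i, (hk _).2 (by rw [hβ', hq]; exact i.2)⟩, i), Subtype.ext ?_⟩
    show α (β i) + (i - α (β i)) = i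
    ring
  · have : LinearMap.ker θ = LinearMap.range σ := by
      ext z
      rw [LinearMap.ker_codRestrict, LinearMap.mem_ker, θ0e]
      constructor
      · intro hz
        have e : α (z.1 - β z.2) = - z.2 := by rw [map_sub]; linear_combination hz
        refine ⟨z.1 - β z.2, Prod.ext (Subtype.ext ?_) ?_⟩
        · show (z.1 - β z.2) - β (α (z.1 - β z.2)) = z.1
          rw [e, map_neg]; abel
        · show - α (z.1 - β z.2) = z.2
          rw [e, neg_neg]
      · rintro ⟨u, rfl⟩
        show α (u - β (α u)) + (- α u - α (β (- α u))) = 0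
        rw [map_sub, map_neg, map_neg]; ring
    rw [this, LinearMap.range_eq_map σ]
    exact Submodule.FG.map _ Module.Finite.fg_top

section Gen
variable {A : Type} [CommRing A] [IsLocalRing A] (x y : A)

def Good (L : Ideal A) : Prop := ∀ t, x * t ∈ L → y * t ∈ L → t ∈ L

def sat (J : Ideal A) : Ideal A where
  carrier := {t | ∃ k : ℕ, x ^ k * t ∈ J ∧ y ^ k * t ∈ J}
  zero_mem' := ⟨0, by simp, by simp⟩
  add_mem' := by
    rintro a b ⟨k, h1, h2⟩ ⟨l, h3, h4⟩
    refine ⟨k + l, ?_, ?_⟩
    · have := J.add_mem (J.mul_mem_left (x ^ l) h1) (J.mul_mem_left (x ^ k) h3)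
      convert this using 1; ring
    · have := J.add_mem (J.mul_mem_left (y ^ l) h2) (J.mul_mem_left (y ^ k) h4)
      convert this using 1; ring
  smul_mem' := by
    rintro c a ⟨k, h1, h2⟩
    refine ⟨k, ?_, ?_⟩
    · have := J.mul_mem_left c h1
      convert this using 1; simp; ring
    · have := J.mul_mem_left c h2
      convert this using 1; simp; ring

omit [IsLocalRing A] in
theorem good_sat (J : Ideal A) : Good x y (sat x y J) := by
  rintro t ⟨k, h1, _⟩ ⟨l, _, h4⟩
  refine ⟨k + l + 1, ?_, ?_⟩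
  · have := J.mul_mem_left (x ^ l) h1
    convert this using 1; ring
  · have := J.mul_mem_left (y ^ k) h4
    convert this using 1; ring

variable {E : Type} [AddCommGroup E] [Module A E] [Module Aᵐᵒᵖ E] [IsCentralScalar A E]

theorem nofg (hx : ∀ t, x * t = 0 → t = 0) (hxy : Good x y (Ideal.span {x}))
    (hE : ∀ L, Good x y L → ∀ W : Set E, W.Finite →
      ∃ (ι : (A ⧸ L) →ₗ[A] E) (π : E →ₗ[A] (A ⧸ L)), (∀ z, π (ι z) = z) ∧ ∀ w ∈ W, π w = 0)
    (m : ℕ) (i0 : Fin m) (r : Fin m → TrivSqZeroExt A E) (hr : ∀ i, ¬ IsUnit (r i))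
    (hfg : (LinearMap.ker (Fintype.linearCombination (TrivSqZeroExt A E) r)).FG)
    (hmin : ∀ k ∈ LinearMap.ker (Fintype.linearCombination (TrivSqZeroExt A E) r),
      ¬ IsUnit (k i0)) : False := by
  obtain ⟨s, k, hk⟩ := Submodule.fg_iff_exists_fin_generating_family.1 hfg
  have hkm : ∀ j, k j ∈ LinearMap.ker (Fintype.linearCombination (TrivSqZeroExt A E) r) :=
    fun j => hk ▸ Submodule.subset_span ⟨j, rfl⟩
  have hsyz : ∀ j, ∑ i, (k j i).fst * (r i).fst = 0 := by
    intro j
    have := hkm j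
    rw [LinearMap.mem_ker, Fintype.linearCombination_apply] at this
    have h2 := congrArg TrivSqZeroExt.fst this
    simpa [fst_sum] using h2
  have C : ∀ L, Good x y L → ∀ c : Fin m → A, ∑ i, c i * (r i).fst ∈ L →
      ∃ n : Fin s → A, ∀ i, c i - ∑ j, n j * (k j i).fst ∈ L := by
    intro L hL c hc
    obtain ⟨ι, π, h1, h2⟩ := hE L hL (Set.range fun p : Fin s × Fin m => (k p.1 p.2).snd)
      (Set.finite_range _)
    have hz : (fun i => (inr (ι (Submodule.Quotient.mk (c i))) : TrivSqZeroExt A E)) ∈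
        LinearMap.ker (Fintype.linearCombination (TrivSqZeroExt A E) r) := by
      rw [LinearMap.mem_ker, Fintype.linearCombination_apply]
      apply TrivSqZeroExt.ext
      · simp [fst_sum]
      · have e : ∀ i, (r i).fst • ι (Submodule.Quotient.mk (c i)) =
            ι (Submodule.mkQ L (c i * (r i).fst)) := by
          intro i
          rw [← map_smul, ← Submodule.Quotient.mk_smul, smul_eq_mul, mul_comm]; rfl
        simp only [smul_eq_mul, snd_sum, snd_mul, fst_inr, zero_smul, snd_inr, op_smul_eq_smul,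
          zero_add, snd_zero, e]
        rw [← map_sum, ← map_sum]
        have : Submodule.mkQ L (∑ i, c i * (r i).fst) = 0 := (Submodule.Quotient.mk_eq_zero L).2 hc
        rw [this, map_zero]
    rw [← hk, Submodule.mem_span_range_iff_exists_fun] at hz
    obtain ⟨β, hβ⟩ := hz
    choose n hn using fun j => Submodule.Quotient.mk_surjective L (π (β j).snd)
    refine ⟨n, fun i => ?_⟩
    have h3 := congrArg (fun z => π (z i).snd) hβ
    simp only [Finset.sum_apply, Pi.smul_apply, smul_eq_mul, snd_sum, snd_mul, op_smul_eq_smul,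
      map_sum, map_add, map_smul, snd_inr, h1] at h3
    rw [← Submodule.Quotient.eq, ← h3]
    show _ = Submodule.mkQ L _
    rw [map_sum]
    refine Finset.sum_congr rfl fun j _ => ?_
    rw [h2 _ ⟨(j, i), rfl⟩, smul_zero, zero_add, ← hn, ← Submodule.Quotient.mk_smul, smul_eq_mul,
      mul_comm]
    rfl
  let J : Ideal A := Ideal.span (Set.range fun i => (r i).fst)
  have hJ : J ≤ IsLocalRing.maximalIdeal A := by
    rw [Ideal.span_le]
    rintro _ ⟨i, rfl⟩
    exact fun h => hr i (isUnit_iff_isUnit_fst.2 h)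
  have h1J : (1 : A) ∉ J := fun h =>
    (IsLocalRing.maximalIdeal.isMaximal A).ne_top ((Ideal.eq_top_iff_one _).2 (hJ h))
  have hex : ∃ l : ℕ, x ^ l ∈ J := by
    classical
    obtain ⟨n, hn⟩ := C _ (good_sat x y J) (Pi.single i0 1) ⟨0, by
      simpa [Pi.single_apply] using Ideal.subset_span (s := Set.range fun i => (r i).fst) ⟨i0, rfl⟩,
      by simpa [Pi.single_apply] using
        Ideal.subset_span (s := Set.range fun i => (r i).fst) ⟨i0, rfl⟩⟩
    have h1 := hn i0
    rw [Pi.single_eq_same] at h1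
    have h2 : ∑ j, n j * (k j i0).fst ∈ IsLocalRing.maximalIdeal A :=
      Ideal.sum_mem _ fun j _ => Ideal.mul_mem_left _ _
        (fun h => hmin _ (hkm j) (isUnit_iff_isUnit_fst.2 h))
    have h3 := IsLocalRing.isUnit_one_sub_self_of_mem_nonunits _ h2
    have h4 := Ideal.eq_top_of_isUnit_mem _ h1 h3
    have h5 : (1 : A) ∈ sat x y J := by rw [h4]; trivial
    obtain ⟨l, hl, _⟩ := h5
    exact ⟨l, by simpa using hl⟩
  classical
  have hl := Nat.find_spec hex
  have hl0 : Nat.find hex ≠ 0 := fun h => h1J (by rw [h, pow_zero] at hl; exact hl)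
  obtain ⟨l, hl'⟩ := Nat.exists_eq_succ_of_ne_zero hl0
  have hnot : x ^ l ∉ J := Nat.find_min hex (by omega)
  rw [hl'] at hl
  obtain ⟨c, hc⟩ := (Submodule.mem_span_range_iff_exists_fun A).1 hl
  simp only [smul_eq_mul] at hc
  obtain ⟨n, hn⟩ := C _ hxy c (by
    rw [hc, Ideal.mem_span_singleton]; exact dvd_pow_self x (Nat.succ_ne_zero l))
  choose u hu using fun i => Ideal.mem_span_singleton'.1 (hn i)
  apply hnot
  have e : x ^ l = ∑ i, u i * (r i).fst := by
    rw [← sub_eq_zero]
    apply hx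
    have e1 : ∑ i, (∑ j, n j * (k j i).fst) * (r i).fst = 0 := by
      simp only [Finset.sum_mul]
      rw [Finset.sum_comm]
      refine Finset.sum_eq_zero fun j _ => ?_
      simp only [mul_assoc]
      rw [← Finset.mul_sum, hsyz, mul_zero]
    have e2 : x * ∑ i, u i * (r i).fst = ∑ i, c i * (r i).fst -
        ∑ i, (∑ j, n j * (k j i).fst) * (r i).fst := by
      rw [Finset.mul_sum, ← Finset.sum_sub_distrib]
      refine Finset.sum_congr rfl fun i _ => ?_
      rw [← sub_mul, ← hu i]; ring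
    rw [mul_sub, e2, e1, hc, pow_succ]; ring
  rw [e]
  exact Ideal.sum_mem _ fun i _ => Ideal.mul_mem_left _ _ (Ideal.subset_span ⟨i, rfl⟩)

theorem weak (hx : ∀ t, x * t = 0 → t = 0) (hxy : Good x y (Ideal.span {x}))
    (hE : ∀ L, Good x y L → ∀ W : Set E, W.Finite →
      ∃ (ι : (A ⧸ L) →ₗ[A] E) (π : E →ₗ[A] (A ⧸ L)), (∀ z, π (ι z) = z) ∧ ∀ w ∈ W, π w = 0) :
    WeakTwoZero (TrivSqZeroExt A E) := by
  intro I h2
  have hfp := fp_of_two I h2
  have hfg : Submodule.FG I := Module.Finite.iff_fg.1 inferInstance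
  have hex := Submodule.fg_iff_exists_fin_generating_family.1 hfg
  classical
  obtain ⟨r, hr⟩ := Nat.find_spec hex
  have hmin := fun m => Nat.find_min hex (m := m)
  generalize Nat.find hex = m at r hr hmin
  cases m with
  | zero =>
    have : I = ⊥ := by rw [← hr]; simp
    exact Module.Projective.of_equiv (Submodule.quotEquivOfEqBot I this).symm
  | succ m =>
    by_cases hu : ∃ i, IsUnit (r i)
    · obtain ⟨i, hi⟩ := hu
      have : I = ⊤ := Ideal.eq_top_of_isUnit_mem I (hr ▸ Submodule.subset_span ⟨i, rfl⟩) hi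
      have : Subsingleton (TrivSqZeroExt A E ⧸ I) := Ideal.Quotient.subsingleton_iff.2 this
      infer_instance
    · exfalso
      refine nofg x y hx hxy hE (m + 1) 0 r (fun i hi => hu ⟨i, hi⟩) ?_ ?_
      · have hm : ∀ z, Fintype.linearCombination (TrivSqZeroExt A E) r z ∈ I := by
          intro z
          rw [← hr, ← Fintype.range_linearCombination]; exact ⟨z, rfl⟩
        rw [← LinearMap.ker_codRestrict I _ hm]
        apply Module.FinitePresentation.fg_ker
        rintro ⟨i, hi⟩
        rw [← hr, ← Fintype.range_linearCombination] at hi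
        obtain ⟨z, hz⟩ := hi
        exact ⟨z, Subtype.ext hz⟩
      · intro k hk hk0
        refine hmin m (Nat.lt_succ_self m) ⟨fun i => r i.succ, ?_⟩
        rw [← hr]
        apply le_antisymm
        · exact Submodule.span_mono (by rintro _ ⟨i, rfl⟩; exact ⟨_, rfl⟩)
        · rw [Submodule.span_le]
          rintro _ ⟨i, rfl⟩
          refine Fin.cases ?_ (fun i => Submodule.subset_span ⟨i, rfl⟩) i
          rw [LinearMap.mem_ker, Fintype.linearCombination_apply, Fin.sum_univ_succ] at hk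
          obtain ⟨v, hv⟩ := hk0.exists_left_inv
          have e : r 0 = -v * ∑ i : Fin m, k i.succ • r i.succ := by
            simp only [smul_eq_mul] at hk ⊢
            linear_combination v * hk - r 0 * hv
          rw [e]
          exact Ideal.mul_mem_left _ _ (Submodule.sum_mem _ fun i _ =>
            Submodule.smul_mem _ _ (Submodule.subset_span ⟨i, rfl⟩))

theorem notproj (hx : ∀ t, x * t = 0 → t = 0) (hx1 : ¬ IsUnit x) (hy1 : ¬ IsUnit y)
    (hE : ∀ e : E, x • e = 0 → y • e = 0 → e = 0) :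
    ∃ (M : Type) (_ : AddCommGroup M) (_ : Module (TrivSqZeroExt A E) M)
      (f : TrivSqZeroExt A E →ₗ[TrivSqZeroExt A E] TrivSqZeroExt A E × TrivSqZeroExt A E)
      (g : TrivSqZeroExt A E × TrivSqZeroExt A E →ₗ[TrivSqZeroExt A E] M),
      Function.Injective f ∧ Function.Exact f g ∧ Function.Surjective g ∧
        ¬ Module.Projective (TrivSqZeroExt A E) M := by
  let f : TrivSqZeroExt A E →ₗ[TrivSqZeroExt A E] TrivSqZeroExt A E × TrivSqZeroExt A E :=
    LinearMap.toSpanSingleton _ _ (inl x, inl y)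
  have hf : Function.Injective f := by
    rw [← LinearMap.ker_eq_bot, eq_bot_iff]
    intro z hz
    have h1 : z * inl x = 0 := congrArg Prod.fst hz
    have h2 : z * inl y = 0 := congrArg Prod.snd hz
    have h3 := congrArg TrivSqZeroExt.fst h1
    have h4 := congrArg TrivSqZeroExt.snd h1
    have h5 := congrArg TrivSqZeroExt.snd h2
    simp at h3 h4 h5
    exact TrivSqZeroExt.ext (hx _ (by rw [mul_comm]; exact h3)) (hE _ h4 h5)
  refine ⟨_, inferInstance, inferInstance, f, (LinearMap.range f).mkQ, hf,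
    LinearMap.exact_map_mkQ_range f, Submodule.mkQ_surjective _, fun hp => ?_⟩
  obtain ⟨s, hs⟩ := Module.projective_lifting_property (LinearMap.range f).mkQ LinearMap.id
    (Submodule.mkQ_surjective _)
  have hu : ∀ u, u - s ((LinearMap.range f).mkQ u) ∈ LinearMap.range f := by
    intro u
    rw [← Submodule.Quotient.mk_eq_zero]
    show (LinearMap.range f).mkQ _ = 0
    rw [map_sub]
    exact sub_eq_zero.2 (LinearMap.congr_fun hs _).symm
  obtain ⟨a0, h0⟩ := hu (1, 0)
  obtain ⟨a1, h1⟩ := hu (0, 1)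
  have e0 : f 1 = (inl x : TrivSqZeroExt A E) • ((1, 0) : TrivSqZeroExt A E × TrivSqZeroExt A E) +
      (inl y : TrivSqZeroExt A E) • ((0, 1) : TrivSqZeroExt A E × TrivSqZeroExt A E) := by
    simp [f]
  have e1 : (LinearMap.range f).mkQ (f 1) = 0 := (Submodule.Quotient.mk_eq_zero _).2 ⟨1, rfl⟩
  have e2 : f (inl x * a0 + inl y * a1) = f 1 := by
    have := congrArg s e1
    rw [e0, map_add, map_add, map_smul, map_smul, map_smul, map_smul, map_zero] at this
    rw [map_add, ← smul_eq_mul, ← smul_eq_mul, map_smul, map_smul, h0, h1, e0, smul_sub, smul_sub,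
      sub_add_sub_comm, this, sub_zero]
  have e3 := congrArg TrivSqZeroExt.fst (hf e2)
  simp only [fst_add, fst_mul, fst_inl, fst_one] at e3
  have : (1 : A) ∈ IsLocalRing.maximalIdeal A := by
    rw [← e3]
    exact Ideal.add_mem _ (Ideal.mul_mem_right _ _ hx1) (Ideal.mul_mem_right _ _ hy1)
  exact (IsLocalRing.maximalIdeal.isMaximal A).ne_top ((Ideal.eq_top_iff_one _).2 this)

abbrev EE : Type := Π₀ i : {L : Ideal A // Good x y L} × ℕ, A ⧸ i.1.1

omit [IsLocalRing A] in
theorem EE1 (e : EE x y) (h1 : x • e = 0) (h2 : y • e = 0) : e = 0 := by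
  ext i
  obtain ⟨t, ht⟩ := Submodule.Quotient.mk_surjective i.1.1 (e i)
  have h3 : x • e i = 0 := DFunLike.congr_fun h1 i
  have h4 : y • e i = 0 := DFunLike.congr_fun h2 i
  rw [← ht, ← Submodule.Quotient.mk_smul, Submodule.Quotient.mk_eq_zero] at h3 h4
  rw [← ht]
  exact (Submodule.Quotient.mk_eq_zero _).2 (i.1.2 t h3 h4)

omit [IsLocalRing A] in
theorem EE2 (L : Ideal A) (hL : Good x y L) (W : Set (EE x y)) (hW : W.Finite) :
    ∃ (ι : (A ⧸ L) →ₗ[A] EE x y) (π : EE x y →ₗ[A] (A ⧸ L)),
      (∀ z, π (ι z) = z) ∧ ∀ w ∈ W, π w = 0 := by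
  classical
  have hfin : (⋃ w ∈ W, Prod.snd '' (DFinsupp.support w : Set ({L : Ideal A // Good x y L} × ℕ))
      ).Finite := hW.biUnion fun w _ => (Finset.finite_toSet _).image _
  obtain ⟨n, hn⟩ := hfin.infinite_compl.nonempty
  refine ⟨DFinsupp.lsingle (M := fun i : {L : Ideal A // Good x y L} × ℕ => A ⧸ i.1.1)
    (⟨L, hL⟩, n), DFinsupp.lapply (M := fun i : {L : Ideal A // Good x y L} × ℕ => A ⧸ i.1.1)
    (⟨L, hL⟩, n), fun z => by simp, fun w hw => ?_⟩
  by_contra h
  exact hn (Set.mem_biUnion hw ⟨(⟨L, hL⟩, n), by simpa using h, rfl⟩)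

end Gen

open PowerSeries in
theorem result : ∃ (R : Type) (_ : CommRing R), WeakTwoZero R ∧
    ∃ (M : Type) (_ : AddCommGroup M) (_ : Module R M) (f : R →ₗ[R] R × R) (g : R × R →ₗ[R] M),
      Function.Injective f ∧ Function.Exact f g ∧ Function.Surjective g ∧
        ¬ Module.Projective R M := by
  let x : ℚ⟦X⟧⟦X⟧ := X
  let y : ℚ⟦X⟧⟦X⟧ := C X
  have hx : ∀ t, x * t = 0 → t = 0 := fun t h => (mul_eq_zero.1 h).resolve_left X_ne_zero
  have hxy : Good x y (Ideal.span {x}) := by
    intro t _ h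
    rw [Ideal.mem_span_singleton, X_dvd_iff] at h ⊢
    rw [map_mul, constantCoeff_C] at h
    exact (mul_eq_zero.1 h).resolve_left X_ne_zero
  have hx1 : ¬ IsUnit x := fun h => by
    have := h.map (constantCoeff (R := ℚ⟦X⟧))
    rw [constantCoeff_X] at this
    exact not_isUnit_zero this
  have hy1 : ¬ IsUnit y := fun h => by
    have := (h.map (constantCoeff (R := ℚ⟦X⟧))).map (constantCoeff (R := ℚ))
    rw [constantCoeff_C, constantCoeff_X] at this
    exact not_isUnit_zero this
  exact ⟨TrivSqZeroExt _ (EE x y), inferInstance, weak x y hx hxy (EE2 x y),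
    notproj x y hx hx1 hy1 (EE1 x y)⟩

end Pool.Agent.Results.MP_682377_al.WeakRing
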